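import Pool.Agent.Helper61.NW.Goals

/-! NW-GR2: finite-by-`ℤ²` groups. -/

set_option autoImplicit false

namespace Pool.Agent.Helper20.NW

open Pool.Agent.Helper52.Wq2 Pool.Agent.Helper61.NW

universe u

theorem conn_iUnion' {V ι : Type*} {G : SimpleGraph V} {A : Set V} {B : ι → Set V}
    (hA : Conn G A) (hB : ∀ i, Conn G (B i)) (h : ∀ i, ∃ x, x ∈ A ∧ x ∈ B i) :
    Conn G (A ∪ ⋃ i, B i) := by
  obtain ⟨x0, hx0⟩ := hA.1
  refine ⟨⟨x0, Or.inl hx0⟩, ?_⟩
  intro X hX hne hcl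
  have h1 : (X ∩ A).Nonempty → A ⊆ X := by
    intro hn x hx
    exact (hA.2 (X ∩ A) Set.inter_subset_right hn
      (fun y hy z hz hyz => ⟨hcl y hy.1 z (Or.inl hz) hyz, hz⟩) hx).1
  have h2 : ∀ i, (X ∩ B i).Nonempty → B i ⊆ X := by
    intro i hn x hx
    exact ((hB i).2 (X ∩ B i) Set.inter_subset_right hn
      (fun y hy z hz hyz => ⟨hcl y hy.1 z (Or.inr (Set.mem_iUnion.2 ⟨i, hz⟩)) hyz, hz⟩) hx).1
  have hAX : A ⊆ X := by
    obtain ⟨x, hx⟩ := hne
    rcases hX hx with hxA | hxB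
    · exact h1 ⟨x, hx, hxA⟩
    · obtain ⟨i, hi⟩ := Set.mem_iUnion.1 hxB
      obtain ⟨y, hy1, hy2⟩ := h i
      exact h1 ⟨y, h2 i ⟨x, hx, hi⟩ hy2, hy1⟩
  rintro y (hy | hy)
  · exact hAX hy
  · obtain ⟨i, hi⟩ := Set.mem_iUnion.1 hy
    obtain ⟨z, hz1, hz2⟩ := h i
    exact h2 i ⟨z, hAX hz1, hz2⟩ hi

theorem key {N j j' : ℤ} (hN : 0 < N) (h1 : N * j - N * j' < N) (h2 : N * j' - N * j < N) :
    j = j' := by
  have h3 : N * (j - j') < N * 1 := by linarith
  have h4 : N * (j' - j) < N * 1 := by linarith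
  have h5 := lt_of_mul_lt_mul_left h3 hN.le
  have h6 := lt_of_mul_lt_mul_left h4 hN.le
  omega

variable {Γ : Type u} [Group Γ]

theorem zp (lam : Γ → ℤ) (hl : ∀ a b, lam (a * b) = lam a + lam b) (g : Γ) (z : ℤ) :
    lam (g ^ z) = z * lam g := by
  let f : Γ →* Multiplicative ℤ := MonoidHom.mk' (fun g => Multiplicative.ofAdd (lam g))
    (fun a b => by rw [hl, ofAdd_add])
  have h1 : f (g ^ z) = f g ^ z := map_zpow f g z
  have h2 := congrArg Multiplicative.toAdd h1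
  rw [toAdd_zpow] at h2
  have h3 : lam (g ^ z) = z • lam g := h2
  rw [smul_eq_mul] at h3
  exact h3

/-- horizontal line -/
def hor (s t k : Γ) (M j : ℤ) : Set Γ := {v | ∃ z : ℤ, True ∧ k * t ^ (M * j) * s ^ z = v}

/-- vertical segment -/
def ver (s t k : Γ) (M' M j : ℤ) : Set Γ :=
  {v | ∃ z : ℤ, (M * j ≤ z ∧ z < M * (j + 1)) ∧ k * s ^ M' * t ^ z = v}

/-- leaf piece -/
def leaf (s t : Γ) (M b j : ℤ) (i : ℕ) : Set Γ :=
  {v | ∃ z : ℤ, (M * j + b ≤ z ∧ z < M * (j + 1) + b) ∧ s ^ (M * i) * t ^ z = v}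

/-- translate of the connector -/
def trP (s t : Γ) (M j : ℤ) (P : Set Γ) (i : ℕ) : Set Γ :=
  (fun p => s ^ (M * i) * t ^ (M * j) * p) '' P

/-- the pieces of the centre -/
def pcs (s t k : Γ) (M' M j : ℤ) (P : Set Γ) : Option ℕ → Set Γ
  | none => ver s t k M' M j
  | some i => trP s t M j P i

theorem conn_left {S : Set Γ} (hS : IsGen S) {P : Set Γ} (hP : Conn (cay S) P) (g : Γ) :
    Conn (cay S) ((fun p => g * p) '' P) := by
  refine hP.image _ ?_
  intro a _ b _ hab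
  right
  rw [cay_adj hS] at hab ⊢
  have e : (g * a)⁻¹ * (g * b) = a⁻¹ * b := by group
  rw [e]
  exact hab

theorem core {S : Set Γ} (hS : IsGen S) (lam mu : Γ → ℤ)
    (hl : ∀ a b, lam (a * b) = lam a + lam b) (hm : ∀ a b, mu (a * b) = mu a + mu b)
    (Δ : ℤ) (hΔ : 0 < Δ) {s t : Γ} (hs : s ∈ S) (ht : t ∈ S) (ls : lam s = 0) (lt : lam t = Δ)
    (ms : mu s = Δ) (mt : mu t = 0) {k : Γ} (lk : lam k = 0) (mk : mu k = 0) (hk : k ≠ 1)
    {P : Set Γ} (hP : Conn (cay S) P) (hkP : k ∈ P) (hPt : ∀ z : ℤ, t ^ z ∉ P) (b : ℤ)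
    (hb : ∃ p ∈ P, (cay S).Adj (t ^ b) p) (M' : ℤ) (hM' : 0 < M')
    (cs : ∀ g, g * s ^ M' = s ^ M' * g) (ct : ∀ g, g * t ^ M' = t ^ M' * g)
    (hL : ∀ p ∈ P, |lam p| < M' * Δ ∧ |mu p| < M' * Δ) : Mn (StarZ ℕ) (cay S) := by
  obtain ⟨M, hM⟩ : ∃ M : ℤ, M = 2 * M' := ⟨_, rfl⟩
  have hM0 : 0 < M := by omega
  obtain ⟨N, hN⟩ : ∃ N : ℤ, N = M' * Δ := ⟨_, rfl⟩
  have hN0 : 0 < N := by rw [hN]; positivity
  have hMN : M * Δ = 2 * N := by rw [hM, hN]; ring
  have zl := zp lam hl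
  have zm := zp mu hm
  have comS : ∀ (g : Γ) (i : ℤ), g * s ^ (M * i) = s ^ (M * i) * g := by
    intro g i
    have h1 : Commute g (s ^ M') := cs g
    have h2 := h1.zpow_right (2 * i)
    rw [← zpow_mul] at h2
    have e : M' * (2 * i) = M * i := by rw [hM]; ring
    rw [e] at h2
    exact h2
  have comT : ∀ (g : Γ) (i : ℤ), g * t ^ (M * i) = t ^ (M * i) * g := by
    intro g i
    have h1 : Commute g (t ^ M') := ct g
    have h2 := h1.zpow_right (2 * i)
    rw [← zpow_mul] at h2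
    have e : M' * (2 * i) = M * i := by rw [hM]; ring
    rw [e] at h2
    exact h2
  -- the numbers
  have horN : ∀ j x, x ∈ hor s t k M j → lam x = 2 * N * j := by
    rintro j x ⟨z, -, rfl⟩
    simp only [hl, zl, ls, lt, lk]
    linear_combination j * hMN
  have verN : ∀ j x, x ∈ ver s t k M' M j → mu x = N ∧ 2 * N * j ≤ lam x ∧
      lam x < 2 * N * j + 2 * N := by
    rintro j x ⟨z, ⟨h1, h2⟩, rfl⟩
    simp only [hl, hm, zl, zm, ls, lt, lk, ms, mt, mk]
    refine ⟨by rw [hN]; ring, ?_, ?_⟩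
    · have := mul_le_mul_of_nonneg_right h1 hΔ.le
      have e : M * j * Δ = 2 * N * j := by linear_combination j * hMN
      linarith
    · have := mul_lt_mul_of_pos_right h2 hΔ
      have e : M * (j + 1) * Δ = 2 * N * j + 2 * N := by linear_combination (j + 1) * hMN
      linarith
  have trN : ∀ j x, ∀ i : ℕ, x ∈ trP s t M j P i → |lam x - 2 * N * j| < N ∧
      |mu x - 2 * N * i| < N := by
    rintro j x i ⟨p, hp, rfl⟩
    simp only [hl, hm, zl, zm, ls, lt, ms, mt]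
    obtain ⟨h1, h2⟩ := hL p hp
    rw [← hN] at h1 h2
    have e1 : M * (i : ℤ) * 0 + M * j * Δ + lam p - 2 * N * j = lam p := by
      linear_combination j * hMN
    have e2 : M * (i : ℤ) * Δ + M * j * 0 + mu p - 2 * N * (i : ℤ) = mu p := by
      linear_combination (i : ℤ) * hMN
    rw [e1, e2]
    exact ⟨h1, h2⟩
  have leafN : ∀ j x, ∀ i : ℕ, x ∈ leaf s t M b j i → mu x = 2 * N * i ∧
      2 * N * j + b * Δ ≤ lam x ∧ lam x < 2 * N * j + 2 * N + b * Δ := by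
    rintro j x i ⟨z, ⟨h1, h2⟩, rfl⟩
    simp only [hl, hm, zl, zm, ls, lt, ms, mt]
    refine ⟨by linear_combination (i : ℤ) * hMN, ?_, ?_⟩
    · have := mul_le_mul_of_nonneg_right h1 hΔ.le
      have e : (M * j + b) * Δ = 2 * N * j + b * Δ := by linear_combination j * hMN
      linarith
    · have := mul_lt_mul_of_pos_right h2 hΔ
      have e : (M * (j + 1) + b) * Δ = 2 * N * j + 2 * N + b * Δ := by
        linear_combination (j + 1) * hMN
      linarith
  have cenN : ∀ j x, x ∈ hor s t k M j ∪ (⋃ o, pcs s t k M' M j P o) →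
      lam x = 2 * N * j ∨ (mu x = N ∧ 2 * N * j ≤ lam x ∧ lam x < 2 * N * j + 2 * N) ∨
      (|lam x - 2 * N * j| < N ∧ ∃ i : ℕ, |mu x - 2 * N * i| < N) := by
    rintro j x (hx | hx)
    · exact Or.inl (horN j x hx)
    · obtain ⟨o, ho⟩ := Set.mem_iUnion.1 hx
      rcases o with _ | i
      · exact Or.inr (Or.inl (verN j x ho))
      · exact Or.inr (Or.inr ⟨(trN j x i ho).1, i, (trN j x i ho).2⟩)
  have no : ∀ i : ℤ, ¬ |N - 2 * N * i| < N := by
    intro i h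
    rw [abs_lt] at h
    have h3 : N * (2 * i - 1) < N * 1 := by linarith [h.1]
    have h4 : N * (1 - 2 * i) < N * 1 := by linarith [h.2]
    have h5 := lt_of_mul_lt_mul_left h3 hN0.le
    have h6 := lt_of_mul_lt_mul_left h4 hN0.le
    omega
  have h2N : 0 < 2 * N := by omega
  have cenD : ∀ j j' x, x ∈ hor s t k M j ∪ (⋃ o, pcs s t k M' M j P o) →
      x ∈ hor s t k M j' ∪ (⋃ o, pcs s t k M' M j' P o) → j = j' := by
    intro j j' x hx hx'
    rcases cenN j x hx with h | ⟨h, h1, h2⟩ | ⟨h, i, h1⟩ <;>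
      rcases cenN j' x hx' with h' | ⟨h', h1', h2'⟩ | ⟨h', i', h1'⟩
    · exact key h2N (by linarith) (by linarith)
    · exact key h2N (by linarith) (by linarith)
    · rw [abs_lt] at h'
      exact key h2N (by linarith [h'.1, h'.2]) (by linarith [h'.1, h'.2])
    · exact key h2N (by linarith) (by linarith)
    · exact key h2N (by linarith) (by linarith)
    · rw [h] at h1'
      exact absurd h1' (no i')
    · rw [abs_lt] at h
      exact key h2N (by linarith [h.1, h.2]) (by linarith [h.1, h.2])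
    · rw [h'] at h1
      exact absurd h1 (no i)
    · rw [abs_lt] at h h'
      exact key h2N (by linarith [h.1, h.2, h'.1, h'.2]) (by linarith [h.1, h.2, h'.1, h'.2])
  have leafD : ∀ j j' (i i' : ℕ) x, x ∈ leaf s t M b j i → x ∈ leaf s t M b j' i' →
      j = j' ∧ i = i' := by
    intro j j' i i' x hx hx'
    obtain ⟨h1, h2, h3⟩ := leafN j x i hx
    obtain ⟨h1', h2', h3'⟩ := leafN j' x i' hx'
    refine ⟨key h2N (by linarith) (by linarith), ?_⟩
    have := key (j := (i : ℤ)) (j' := (i' : ℤ)) h2N (by linarith) (by linarith)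
    exact_mod_cast this
  have mixD : ∀ j j' (i : ℕ) x, x ∈ leaf s t M b j i →
      x ∉ hor s t k M j' ∪ (⋃ o, pcs s t k M' M j' P o) := by
    rintro j j' i x hx (hx' | hx')
    · obtain ⟨z, -, rfl⟩ := hx
      obtain ⟨a, -, ha⟩ := hx'
      have e1 := congrArg mu ha
      have e2 := congrArg lam ha
      simp only [hl, hm, zl, zm, ls, lt, lk, ms, mt, mk] at e1 e2
      have ea : a = M * i := mul_right_cancel₀ hΔ.ne' (by linarith)
      have ez : z = M * j' := mul_right_cancel₀ hΔ.ne' (by linarith)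
      rw [ea, ez, mul_assoc, comS] at ha
      exact hk (mul_eq_right.1 ha)
    · obtain ⟨o, ho⟩ := Set.mem_iUnion.1 hx'
      obtain ⟨h1, h2, h3⟩ := leafN j x i hx
      rcases o with _ | i'
      · obtain ⟨h4, -, -⟩ := verN j' x ho
        rw [h1] at h4
        have h5 : N * (2 * i) = N * 1 := by linarith
        have h6 := mul_left_cancel₀ hN0.ne' h5
        omega
      · obtain ⟨-, h4⟩ := trN j' x i' ho
        rw [h1, abs_lt] at h4
        have hi := key (j := (i : ℤ)) (j' := (i' : ℤ)) h2N (by linarith [h4.1, h4.2])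
          (by linarith [h4.1, h4.2])
        obtain ⟨z, -, rfl⟩ := hx
        obtain ⟨p, hp, hpx⟩ := ho
        have hpx' : s ^ (M * (i' : ℤ)) * t ^ (M * j') * p = s ^ (M * (i : ℤ)) * t ^ z := hpx
        rw [← hi, mul_assoc] at hpx'
        have h7 := mul_left_cancel hpx'
        have h8 : p = t ^ (-(M * j') + z) := by
          rw [zpow_add, zpow_neg, eq_inv_mul_iff_mul_eq]
          exact h7
        exact hPt _ (h8 ▸ hp)
  refine ⟨fun v => match v.2 with
    | none => hor s t k M v.1 ∪ (⋃ o, pcs s t k M' M v.1 P o)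
    | some i => leaf s t M b v.1 i, ?_, ?_, ?_⟩
  · rintro ⟨j, _ | i⟩
    · refine conn_iUnion' ?_ ?_ ?_
      · exact conn_line (fun z => k * t ^ (M * j) * s ^ z) (fun _ => True) 0 trivial
          (fun _ _ _ => trivial) (fun _ _ _ => trivial) (fun z _ _ => by
            rw [zpow_add_one, ← mul_assoc]
            exact cay_adj_mul hS _ hs)
      · rintro (_ | i)
        · refine conn_line (fun z => k * s ^ M' * t ^ z)
            (fun z => M * j ≤ z ∧ z < M * (j + 1)) (M * j) ?_ ?_ ?_ ?_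
          · exact ⟨le_rfl, by nlinarith⟩
          · rintro z h1 ⟨h2, h3⟩
            exact ⟨h1, by omega⟩
          · rintro z h1 ⟨h2, h3⟩
            exact ⟨by omega, by nlinarith⟩
          · intro z _ _
            rw [zpow_add_one, ← mul_assoc]
            exact cay_adj_mul hS _ ht
        · exact conn_left hS hP _
      · rintro (_ | i)
        · refine ⟨k * t ^ (M * j) * s ^ M', ⟨M', trivial, rfl⟩, M * j, ⟨le_rfl, by nlinarith⟩, ?_⟩
          rw [mul_assoc, mul_assoc, cs]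
        · refine ⟨k * t ^ (M * j) * s ^ (M * i), ⟨M * i, trivial, rfl⟩, k, hkP, ?_⟩
          change s ^ (M * (i : ℤ)) * t ^ (M * j) * k = k * t ^ (M * j) * s ^ (M * (i : ℤ))
          rw [comS, mul_assoc, comT]
    · refine conn_line (fun z => s ^ (M * i) * t ^ z)
        (fun z => M * j + b ≤ z ∧ z < M * (j + 1) + b) (M * j + b) ?_ ?_ ?_ ?_
      · exact ⟨le_rfl, by nlinarith⟩
      · rintro z h1 ⟨h2, h3⟩
        exact ⟨h1, by omega⟩
      · rintro z h1 ⟨h2, h3⟩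
        exact ⟨by omega, by nlinarith⟩
      · intro z _ _
        rw [zpow_add_one, ← mul_assoc]
        exact cay_adj_mul hS _ ht
  · rintro ⟨j, _ | i⟩ ⟨j', _ | i'⟩ x hx hx'
    · rw [cenD j j' x hx hx']
    · exact absurd hx (mixD j' j i' x hx')
    · exact absurd hx' (mixD j j' i x hx)
    · obtain ⟨h1, h2⟩ := leafD j j' i i' x hx hx'
      rw [h1, h2]
  · have sp : ∀ (j : ℤ) (i : ℕ), ∃ a ∈ hor s t k M j ∪ (⋃ o, pcs s t k M' M j P o),
        ∃ c ∈ leaf s t M b j i, (cay S).Adj a c := by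
      intro j i
      obtain ⟨p, hp, hbp⟩ := hb
      refine ⟨s ^ (M * i) * t ^ (M * j) * p, Or.inr (Set.mem_iUnion.2 ⟨some i, p, hp, rfl⟩),
        s ^ (M * i) * t ^ (M * j + b), ⟨M * j + b, ⟨le_rfl, by nlinarith⟩, rfl⟩, ?_⟩
      rw [cay_adj hS] at hbp
      refine SimpleGraph.Adj.symm ?_
      rw [cay_adj hS, zpow_add]
      have e : (s ^ (M * (i : ℤ)) * (t ^ (M * j) * t ^ b))⁻¹ *
          (s ^ (M * (i : ℤ)) * t ^ (M * j) * p) = (t ^ b)⁻¹ * p := by group
      rw [e]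
      exact hbp
    have cc : ∀ j : ℤ, ∃ a ∈ hor s t k M j ∪ (⋃ o, pcs s t k M' M j P o),
        ∃ c ∈ hor s t k M (j + 1) ∪ (⋃ o, pcs s t k M' M (j + 1) P o), (cay S).Adj a c := by
      intro j
      refine ⟨k * s ^ M' * t ^ (M * (j + 1) - 1), Or.inr (Set.mem_iUnion.2 ⟨none,
        M * (j + 1) - 1, ⟨by nlinarith, by omega⟩, rfl⟩), k * s ^ M' * t ^ (M * (j + 1)),
        Or.inr (Set.mem_iUnion.2 ⟨none, M * (j + 1), ⟨le_rfl, by nlinarith⟩, rfl⟩), ?_⟩
      have := cay_adj_mul hS (k * s ^ M' * t ^ (M * (j + 1) - 1)) ht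
      rw [mul_assoc (k * s ^ M'), ← zpow_add_one, sub_add_cancel] at this
      exact this
    have ll : ∀ (j : ℤ) (i : ℕ), ∃ a ∈ leaf s t M b j i,
        ∃ c ∈ leaf s t M b (j + 1) i, (cay S).Adj a c := by
      intro j i
      refine ⟨s ^ (M * i) * t ^ (M * (j + 1) + b - 1), ⟨_, ⟨by nlinarith, by omega⟩, rfl⟩,
        s ^ (M * i) * t ^ (M * (j + 1) + b), ⟨_, ⟨le_rfl, by nlinarith⟩, rfl⟩, ?_⟩
      have := cay_adj_mul hS (s ^ (M * (i : ℤ)) * t ^ (M * (j + 1) + b - 1)) ht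
      rw [mul_assoc (s ^ (M * (i : ℤ))), ← zpow_add_one, sub_add_cancel] at this
      exact this
    rintro ⟨x, o⟩ ⟨y, o'⟩ hadj
    unfold StarZ at hadj
    rw [SimpleGraph.fromRel_adj] at hadj
    obtain ⟨hne, (⟨h1, h2⟩ | ⟨h1, h2⟩) | (⟨h1, h2⟩ | ⟨h1, h2⟩)⟩ := hadj
    · simp only at h1 h2
      subst h1 h2
      rcases o with _ | i
      · exact cc x
      · exact ll x i
    · simp only at h1 h2
      subst h1 h2
      rcases o' with _ | i
      · exact absurd rfl hne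
      · exact sp x i
    · simp only at h1 h2
      subst h1 h2
      rcases o' with _ | i
      · obtain ⟨a, ha, c, hc, hac⟩ := cc y
        exact ⟨c, hc, a, ha, hac.symm⟩
      · obtain ⟨a, ha, c, hc, hac⟩ := ll y i
        exact ⟨c, hc, a, ha, hac.symm⟩
    · simp only at h1 h2
      subst h1 h2
      rcases o with _ | i
      · exact absurd rfl hne
      · obtain ⟨a, ha, c, hc, hac⟩ := sp y i
        exact ⟨c, hc, a, ha, hac.symm⟩

theorem vanish {S : Set Γ} (hS : IsGen S) (f : Γ → ℤ) (hf : ∀ a b, f (a * b) = f a + f b)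
    (h : ∀ s ∈ S, f s = 0) : ∀ g, f g = 0 := by
  have h1 : f 1 = 0 := by
    have := hf 1 1
    rw [mul_one] at this
    omega
  intro g
  have hg : g ∈ Subgroup.closure S := by rw [hS.1]; exact Subgroup.mem_top g
  induction hg using Subgroup.closure_induction with
  | mem x hx => exact h x hx
  | one => exact h1
  | mul x y _ _ hx hy => rw [hf, hx, hy, add_zero]
  | inv x _ hx =>
    have := hf x x⁻¹
    rw [mul_inv_cancel, h1, hx] at this
    omega

theorem cpow {A : Type*} [Group A] (h : Γ →* A) (hA : ∀ a b : A, a * b = b * a)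
    (hfin : (h.ker : Set Γ).Finite) (s : Γ) : ∃ m : ℕ, 0 < m ∧ ∀ g, g * s ^ m = s ^ m * g := by
  have hF : Finite h.ker := hfin.to_subtype
  have h1 : IsOfFinOrder (MulAut.conjNormal (H := h.ker) s) := isOfFinOrder_of_finite _
  obtain ⟨n, hn, h2⟩ := isOfFinOrder_iff_pow_eq_one.1 h1
  have h3 : ∀ c ∈ h.ker, s ^ n * c = c * s ^ n := by
    intro c hc
    rw [← map_pow] at h2
    have h5 : ((MulAut.conjNormal (H := h.ker) (s ^ n) ⟨c, hc⟩ : h.ker) : Γ) = c := by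
      rw [h2]
      rfl
    rw [MulAut.conjNormal_apply, mul_inv_eq_iff_eq_mul] at h5
    exact h5
  have hr : 0 < Nat.card h.ker := Nat.card_pos
  refine ⟨n * Nat.card h.ker, Nat.mul_pos hn hr, ?_⟩
  intro g
  obtain ⟨c, hc⟩ : ∃ c, c = g * s ^ n * g⁻¹ * (s ^ n)⁻¹ := ⟨_, rfl⟩
  have hcK : c ∈ h.ker := by
    rw [hc, MonoidHom.mem_ker, map_mul, map_mul, map_mul, map_inv, map_inv,
      hA (h g) (h (s ^ n)), mul_inv_cancel_right, mul_inv_cancel]
  have h4 : g * s ^ n * g⁻¹ = c * s ^ n := by rw [hc]; group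
  have h5 : c ^ Nat.card h.ker = 1 := by
    have h6 : (⟨c, hcK⟩ : h.ker) ^ Nat.card h.ker = 1 := pow_card_eq_one'
    exact congrArg Subtype.val h6
  have h6 : Commute c (s ^ n) := (h3 c hcK).symm
  have h7 : g * s ^ (n * Nat.card h.ker) * g⁻¹ = s ^ (n * Nat.card h.ker) := by
    rw [pow_mul, ← conj_pow, h4, h6.mul_pow, h5, one_mul]
  rw [mul_inv_eq_iff_eq_mul] at h7
  exact h7

theorem connector {S : Set Γ} (hS : IsGen S) (t : Γ) (x : Γ) :
    (∃ z : ℤ, t ^ z = x) ∨ ∃ P : Set Γ, P.Finite ∧ Conn (cay S) P ∧ x ∈ P ∧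
      (∀ z : ℤ, t ^ z ∉ P) ∧ ∃ b : ℤ, ∃ p ∈ P, (cay S).Adj (t ^ b) p := by
  have step : ∀ x g : Γ, g ∈ S → ((∃ z : ℤ, t ^ z = x) ∨ ∃ P : Set Γ, P.Finite ∧
      Conn (cay S) P ∧ x ∈ P ∧ (∀ z : ℤ, t ^ z ∉ P) ∧ ∃ b : ℤ, ∃ p ∈ P, (cay S).Adj (t ^ b) p) →
      ((∃ z : ℤ, t ^ z = x * g) ∨ ∃ P : Set Γ, P.Finite ∧ Conn (cay S) P ∧ x * g ∈ P ∧
      (∀ z : ℤ, t ^ z ∉ P) ∧ ∃ b : ℤ, ∃ p ∈ P, (cay S).Adj (t ^ b) p) := by
    intro x g hg h
    rcases Classical.em (∃ z : ℤ, t ^ z = x * g) with h0 | h0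
    · exact Or.inl h0
    right
    have hadj := cay_adj_mul hS x hg
    rcases h with ⟨z, hz⟩ | ⟨P, h1, h2, h3, h4, b, p, hp, hbp⟩
    · refine ⟨{x * g}, Set.finite_singleton _, conn_singleton _ _, rfl, ?_, z, x * g, rfl, ?_⟩
      · intro z' hz'
        exact h0 ⟨z', hz'⟩
      · rw [hz]
        exact hadj
    · refine ⟨P ∪ {x * g}, h1.union (Set.finite_singleton _),
        h2.union (conn_singleton _ _) h3 rfl hadj, Or.inr rfl, ?_, b, p, Or.inl hp, hbp⟩
      rintro z' (hz' | hz')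
      · exact h4 z' hz'
      · exact h0 ⟨z', hz'⟩
  have hg : x ∈ Subgroup.closure S := by rw [hS.1]; exact Subgroup.mem_top x
  induction hg using Subgroup.closure_induction_right with
  | one => exact Or.inl ⟨0, zpow_zero t⟩
  | mul_right x _ y hy ih => exact step x y hy ih
  | mul_inv_cancel x _ y hy ih => exact step x y⁻¹ (hS.2.1 y hy) ih

theorem gr2 : Gr2Stmt.{u} := by
  intro Γ _ h S hsurj hfin hkk hS _
  obtain ⟨k, hk1, hk0⟩ := hkk
  obtain ⟨c1, hc1⟩ : ∃ c1 : Γ → ℤ, ∀ g, c1 g = (Multiplicative.toAdd (h g)).1 :=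
    ⟨_, fun _ => rfl⟩
  obtain ⟨c2, hc2⟩ : ∃ c2 : Γ → ℤ, ∀ g, c2 g = (Multiplicative.toAdd (h g)).2 :=
    ⟨_, fun _ => rfl⟩
  have a1 : ∀ a b, c1 (a * b) = c1 a + c1 b := by
    intro a b
    rw [hc1, hc1, hc1, map_mul, toAdd_mul, Prod.fst_add]
  have a2 : ∀ a b, c2 (a * b) = c2 a + c2 b := by
    intro a b
    rw [hc2, hc2, hc2, map_mul, toAdd_mul, Prod.snd_add]
  have sur : ∀ u v : ℤ, ∃ g, c1 g = u ∧ c2 g = v := by
    intro u v
    obtain ⟨g, hg⟩ := hsurj (Multiplicative.ofAdd (u, v))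
    refine ⟨g, ?_, ?_⟩
    · rw [hc1, hg]; rfl
    · rw [hc2, hg]; rfl
  obtain ⟨s, hs, t, ht, hst⟩ : ∃ s ∈ S, ∃ t ∈ S, c1 s * c2 t - c2 s * c1 t ≠ 0 := by
    by_contra hcon
    have h0 : ∀ s ∈ S, ∀ t ∈ S, c1 s * c2 t - c2 s * c1 t = 0 := by
      intro s hs t ht
      by_contra h1
      exact hcon ⟨s, hs, t, ht, h1⟩
    have h1 : ∀ s ∈ S, c1 s = 0 ∧ c2 s = 0 := by
      intro s hs
      have h2 := vanish hS (fun g => c1 s * c2 g - c2 s * c1 g)
        (fun a b => by simp only [a1, a2]; ring) (h0 s hs)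
      obtain ⟨g, hg1, hg2⟩ := sur 1 0
      obtain ⟨g', hg1', hg2'⟩ := sur 0 1
      have h3 := h2 g
      have h4 := h2 g'
      simp only [hg1, hg2, hg1', hg2'] at h3 h4
      constructor <;> linarith
    have h2 := vanish hS c1 a1 (fun s hs => (h1 s hs).1)
    obtain ⟨g, hg1, -⟩ := sur 1 0
    have := h2 g
    omega
  obtain ⟨m1, hm1, hcs⟩ := cpow h (fun a b => mul_comm a b) hfin s
  obtain ⟨m2, hm2, hct⟩ := cpow h (fun a b => mul_comm a b) hfin t
  have k1 : c1 k = 0 := by rw [hc1, hk0]; rfl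
  have k2 : c2 k = 0 := by rw [hc2, hk0]; rfl
  -- sign
  obtain ⟨lam, mu, Δ, hΔ, hl, hm, ls, lt, ms, mt, lk, mk⟩ : ∃ (lam mu : Γ → ℤ) (Δ : ℤ), 0 < Δ ∧
      (∀ a b, lam (a * b) = lam a + lam b) ∧ (∀ a b, mu (a * b) = mu a + mu b) ∧
      lam s = 0 ∧ lam t = Δ ∧ mu s = Δ ∧ mu t = 0 ∧ lam k = 0 ∧ mu k = 0 := by
    rcases lt_or_gt_of_ne hst with h0 | h0
    · refine ⟨fun g => -(c1 s * c2 g - c2 s * c1 g), fun g => -(c1 g * c2 t - c2 g * c1 t),
        -(c1 s * c2 t - c2 s * c1 t), by omega, ?_, ?_, by ring, rfl, by ring, by ring, ?_, ?_⟩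
      · intro a b; simp only [a1, a2]; ring
      · intro a b; simp only [a1, a2]; ring
      · simp only [k1, k2]; ring
      · simp only [k1, k2]; ring
    · refine ⟨fun g => c1 s * c2 g - c2 s * c1 g, fun g => c1 g * c2 t - c2 g * c1 t,
        c1 s * c2 t - c2 s * c1 t, h0, ?_, ?_, by ring, rfl, by ring, by ring, ?_, ?_⟩
      · intro a b; simp only [a1, a2]; ring
      · intro a b; simp only [a1, a2]; ring
      · simp only [k1, k2]; ring
      · simp only [k1, k2]; ring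
  have hcon := connector hS t k
  rcases hcon with ⟨z, hz⟩ | ⟨P, hPf, hP, hkP, hPt, b, hb⟩
  · exfalso
    have h1 := zp lam hl t z
    rw [hz, lk, lt] at h1
    have h2 : z = 0 := by
      rcases mul_eq_zero.1 h1.symm with h3 | h3
      · exact h3
      · omega
    rw [h2, zpow_zero] at hz
    exact hk1 hz.symm
  obtain ⟨L, hL⟩ := (hPf.image (fun p => |lam p| + |mu p|)).bddAbove
  have hL' : ∀ p ∈ P, |lam p| + |mu p| ≤ L := fun p hp => hL ⟨p, hp, rfl⟩
  have hL0 : 0 ≤ L := by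
    have := hL' k hkP
    have h1 := abs_nonneg (lam k)
    have h2 := abs_nonneg (mu k)
    omega
  have hm0 : (1 : ℤ) ≤ (m1 : ℤ) * m2 := by
    have : 0 < m1 * m2 := Nat.mul_pos hm1 hm2
    exact_mod_cast this
  refine core hS lam mu hl hm Δ hΔ hs ht ls lt ms mt lk mk hk1 hP hkP hPt b hb
    ((m1 : ℤ) * m2 * (L + 1)) (by positivity) ?_ ?_ ?_
  · intro g
    have h1 : Commute g (s ^ m1) := hcs g
    have h2 := h1.zpow_right ((m2 : ℤ) * (L + 1))
    rw [← zpow_natCast, ← zpow_mul] at h2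
    have e : (m1 : ℤ) * ((m2 : ℤ) * (L + 1)) = (m1 : ℤ) * m2 * (L + 1) := by ring
    rw [e] at h2
    exact h2
  · intro g
    have h1 : Commute g (t ^ m2) := hct g
    have h2 := h1.zpow_right ((m1 : ℤ) * (L + 1))
    rw [← zpow_natCast, ← zpow_mul] at h2
    have e : (m2 : ℤ) * ((m1 : ℤ) * (L + 1)) = (m1 : ℤ) * m2 * (L + 1) := by ring
    rw [e] at h2
    exact h2
  · intro p hp
    have h1 := hL' p hp
    have h2 := abs_nonneg (lam p)
    have h3 := abs_nonneg (mu p)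
    have h4 : L + 1 ≤ (m1 : ℤ) * m2 * (L + 1) * Δ := by
      have h5 : (1 : ℤ) ≤ (m1 : ℤ) * m2 * Δ := by nlinarith
      nlinarith
    constructor <;> omega

end Pool.Agent.Helper20.NW
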